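import Mathlib

/-!
# The genus 2 curves `C_u` are smooth where `u² - 25 u - 625` is invertible
-/

namespace H81ES

section
variable {R : Type} [CommRing R]

/-- `δ = u² - 25 u - 625` -/
def dl (u : R) : R := u ^ 2 - 25 * u - 625
/-- the cubic -/
def cub (u x : R) : R := 25 * x ^ 3 + 3 * u * x ^ 2 + 3 * (u + 25) * x + (2 * u + 25)
/-- derivative of the cubic -/
def cub' (u x : R) : R := 75 * x ^ 2 + 6 * u * x + 3 * (u + 25)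
/-- the quartic -/
def qrt (u x : R) : R :=
  25 * x ^ 4 + 4 * u * x ^ 3 + 6 * (u + 25) * x ^ 2 + 4 * (2 * u + 25) * x + (3 * u + 50)
/-- derivative of the quartic -/
def qrt' (u x : R) : R :=
  100 * x ^ 3 + 12 * u * x ^ 2 + 12 * (u + 25) * x + 4 * (2 * u + 25)
/-- `h` -/
def hh (u x : R) : R := dl u * (x ^ 2 + x) + cub u x
/-- derivative of `h` -/
def hh' (u x : R) : R := dl u * (2 * x + 1) + cub' u x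
/-- `f` -/
def ff (u x : R) : R :=
  dl u * ((x ^ 2 + x - 1) * qrt u x + (x ^ 3 + x ^ 2 + 4 * x + 2) * cub u x)
    + 31 * cub u x ^ 2
/-- derivative of `f` -/
def ff' (u x : R) : R :=
  dl u * ((2 * x + 1) * qrt u x + (x ^ 2 + x - 1) * qrt' u x
    + (3 * x ^ 2 + 2 * x + 4) * cub u x + (x ^ 3 + x ^ 2 + 4 * x + 2) * cub' u x)
    + 62 * cub u x * cub' u x

theorem bezout (u x : R) (h1 : hh u x ^ 2 + 4 * ff u x = 0)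
    (h2 : 2 * hh u x * hh' u x + 4 * ff' u x = 0) : 8 * dl u ^ 6 = 0 := by
  simp only [hh, hh', ff, ff', dl, cub, cub', qrt, qrt'] at h1 h2 ⊢
  linear_combination ((5029296875000 + 862304687500 * u + 3515625000 * u ^ 2 - 5191406250 * u ^ 3 - 177187500 * u ^ 4 + 8057500 * u ^ 5 + 279900 * u ^ 6 - 2390 * u ^ 7 - 220 * u ^ 8 + 2 * u ^ 9)
      + (9594726562500 - 596679687500 * u - 178808593750 * u ^ 2 + 2882812500 * u ^ 3 + 524687500 * u ^ 4 - 32171250 * u ^ 5 + 140450 * u ^ 6 + 43210 * u ^ 7 - 1042 * u ^ 8 + 4 * u ^ 9) * x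
      + (- 13208007812500 - 1523925781250 * u + 158203125000 * u ^ 2 + 10132812500 * u ^ 3 - 795468750 * u ^ 4 - 4726250 * u ^ 5 + 414350 * u ^ 6 + 22570 * u ^ 7 - 592 * u ^ 8) * x ^ 2
      + (- 1843261718750 + 826171875000 * u + 108789062500 * u ^ 2 + 1511718750 * u ^ 3 - 362968750 * u ^ 4 - 23416250 * u ^ 5 + 1697550 * u ^ 6 - 24420 * u ^ 7) * x ^ 3
      + (878906250000 + 603515625000 * u + 62402343750 * u ^ 2 - 3492187500 * u ^ 3 - 273281250 * u ^ 4 + 16470000 * u ^ 5 - 219600 * u ^ 6) * x ^ 4) * h1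
    + ((- 1342773437500 - 163330078125 * u + 9550781250 * u ^ 2 + 1937500000 * u ^ 3 + 23281250 * u ^ 4 - 4278125 * u ^ 5 - 50050 * u ^ 6 + 4009 * u ^ 7 - 28 * u ^ 8)
      + (250244140625 - 44921875000 * u - 742187500 * u ^ 2 + 1648437500 * u ^ 3 + 116953125 * u ^ 4 - 3485625 * u ^ 5 - 212175 * u ^ 6 + 1667 * u ^ 7 + 134 * u ^ 8 - 1 * u ^ 9) * x
      + (- 2209472656250 + 110595703125 * u + 47871093750 * u ^ 2 - 513671875 * u ^ 3 - 159296875 * u ^ 4 + 10383750 * u ^ 5 - 59275 * u ^ 6 - 14509 * u ^ 7 + 345 * u ^ 8 - 1 * u ^ 9) * x ^ 2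
      + (2679443359375 + 307373046875 * u - 41201171875 * u ^ 2 - 2361328125 * u ^ 3 + 216250000 * u ^ 4 + 635625 * u ^ 5 - 111575 * u ^ 6 - 5652 * u ^ 7 + 155 * u ^ 8) * x ^ 3
      + (225830078125 - 187500000000 * u - 20966796875 * u ^ 2 - 169921875 * u ^ 3 + 68671875 * u ^ 4 + 4631875 * u ^ 5 - 339350 * u ^ 6 + 4924 * u ^ 7) * x ^ 4
      + (- 146484375000 - 100585937500 * u - 10400390625 * u ^ 2 + 582031250 * u ^ 3 + 45546875 * u ^ 4 - 2745000 * u ^ 5 + 36600 * u ^ 6) * x ^ 5) * h2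

theorem char2 (u x y : R) (h2 : (2 : R) = 0) (e1 : 2 * y + hh u x = 0)
    (e2 : y ^ 2 + hh u x * y = ff u x) (e3 : hh' u x * y = ff' u x) : dl u ^ 7 = 0 := by
  have hd : dl u = u ^ 2 + u + 1 := by
    simp only [dl]
    linear_combination (- 13 * u - 313) * h2
  simp only [hh, hh', ff, ff', dl, cub, cub', qrt, qrt'] at e1 e2 e3
  have k1 : x ^ 3 + (1 + u ^ 2) * x ^ 2 + u ^ 2 * x + 1 = 0 := by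
    linear_combination e1 - (y + (12 + 1 * u - 275 * x - 11 * x * u - 313 * x ^ 2 - 11 * x ^ 2 * u + 12 * x ^ 3)) * h2
  have k2 : y ^ 2 = 1 + 1 * u + 1 * u ^ 2 + 1 * u ^ 3 + 1 * x * u + 1 * x * u ^ 2 + 1 * x * u ^ 3 + 1 * x ^ 2 * u ^ 2 + 1 * x ^ 2 * u ^ 3 + 1 * x ^ 3 * u + 1 * x ^ 3 * u ^ 2 + 1 * x ^ 3 * u ^ 3 + 1 * x ^ 4 * u ^ 2 + 1 * x ^ 5 * u + 1 * x ^ 5 * u ^ 2 + 1 * x ^ 5 * u ^ 3 + 1 * x ^ 6 := by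
    linear_combination e2 - y * e1 + (y ^ 2 + (9687 + 1237 * u + 49 * u ^ 2 - 4375 * x + 1662 * x * u + 173 * x * u ^ 2 + 4 * x * u ^ 3 - 14375 * x ^ 2 - 2575 * x ^ 2 * u + 175 * x ^ 2 * u ^ 2 + 12 * x ^ 2 * u ^ 3 - 105625 * x ^ 3 - 4913 * x ^ 3 * u + 141 * x ^ 3 * u ^ 2 + 13 * x ^ 3 * u ^ 3 - 35625 * x ^ 4 - 6425 * x ^ 4 * u + 89 * x ^ 4 * u ^ 2 + 8 * x ^ 4 * u ^ 3 - 15625 * x ^ 5 - 488 * x ^ 5 * u - 63 * x ^ 5 * u ^ 2 + 3 * x ^ 5 * u ^ 3 - 5938 * x ^ 6 - 625 * x ^ 6 * u + 25 * x ^ 6 * u ^ 2)) * h2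
  have k3 : (x ^ 2 + u ^ 2) * y = u * (u ^ 2 + u + 1) * (x ^ 4 + x ^ 2 + 1) := by
    linear_combination e3 + ((- 4375 + 1662 * u + 173 * u ^ 2 + 4 * u ^ 3 - 28750 * x - 5150 * x * u + 351 * x * u ^ 2 + 25 * x * u ^ 3 - 316875 * x ^ 2 - 14738 * x ^ 2 * u + 424 * x ^ 2 * u ^ 2 + 40 * x ^ 2 * u ^ 3 - 142500 * x ^ 3 - 25700 * x ^ 3 * u + 358 * x ^ 3 * u ^ 2 + 32 * x ^ 3 * u ^ 3 - 78125 * x ^ 4 - 2438 * x ^ 4 * u - 313 * x ^ 4 * u ^ 2 + 17 * x ^ 4 * u ^ 3 - 35625 * x ^ 5 - 3750 * x ^ 5 * u + 150 * x ^ 5 * u ^ 2)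
      - (- 275 - 11 * u - 625 * x - 22 * x * u + 1 * x * u ^ 2 + 37 * x ^ 2) * y) * h2
  have k4 : (x ^ 2 + u ^ 2) ^ 2 * (1 + 1 * u + 1 * u ^ 2 + 1 * u ^ 3 + 1 * x * u + 1 * x * u ^ 2 + 1 * x * u ^ 3 + 1 * x ^ 2 * u ^ 2 + 1 * x ^ 2 * u ^ 3 + 1 * x ^ 3 * u + 1 * x ^ 3 * u ^ 2 + 1 * x ^ 3 * u ^ 3 + 1 * x ^ 4 * u ^ 2 + 1 * x ^ 5 * u + 1 * x ^ 5 * u ^ 2 + 1 * x ^ 5 * u ^ 3 + 1 * x ^ 6)
      - (u * (u ^ 2 + u + 1) * (x ^ 4 + x ^ 2 + 1)) ^ 2 = 0 := by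
    linear_combination (-(x ^ 2 + u ^ 2) ^ 2) * k2
      + ((x ^ 2 + u ^ 2) * y + u * (u ^ 2 + u + 1) * (x ^ 4 + x ^ 2 + 1)) * k3
  rw [hd]
  linear_combination (1 + 1 * u + 1 * u ^ 4 + 1 * u ^ 6 + 1 * u ^ 7 + 1 * u ^ 8 + 1 * u ^ 10 + 1 * u ^ 11 + 1 * u ^ 12 + 1 * x * u ^ 3 + 1 * x * u ^ 6 + 1 * x * u ^ 7 + 1 * x * u ^ 9 + 1 * x ^ 2 + 1 * x ^ 2 * u + 1 * x ^ 2 * u ^ 4 + 1 * x ^ 2 * u ^ 5 + 1 * x ^ 2 * u ^ 6 + 1 * x ^ 2 * u ^ 9 + 1 * x ^ 2 * u ^ 11 + 1 * x ^ 2 * u ^ 12 + 1 * x ^ 3 + 1 * x ^ 3 * u + 1 * x ^ 3 * u ^ 2 + 1 * x ^ 3 * u ^ 4 + 1 * x ^ 3 * u ^ 6 + 1 * x ^ 3 * u ^ 7 + 1 * x ^ 3 * u ^ 8 + 1 * x ^ 3 * u ^ 9 + 1 * x ^ 3 * u ^ 10 + 1 * x ^ 3 * u ^ 12 + 1 * x ^ 4 + 1 * x ^ 4 * u ^ 2 + 1 * x ^ 4 * u ^ 3 + 1 * x ^ 4 * u ^ 6 + 1 * x ^ 4 * u ^ 10 + 1 * x ^ 5 + 1 * x ^ 5 * u + 1 *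 x ^ 5 * u ^ 7 + 1 * x ^ 5 * u ^ 8 + 1 * x ^ 5 * u ^ 9 + 1 * x ^ 5 * u ^ 11 + 1 * x ^ 6 + 1 * x ^ 6 * u ^ 3 + 1 * x ^ 6 * u ^ 4 + 1 * x ^ 6 * u ^ 5 + 1 * x ^ 6 * u ^ 6 + 1 * x ^ 6 * u ^ 7 + 1 * x ^ 6 * u ^ 9 + 1 * x ^ 6 * u ^ 11 + 1 * x ^ 7 * u ^ 2 + 1 * x ^ 7 * u ^ 4 + 1 * x ^ 7 * u ^ 5 + 1 * x ^ 7 * u ^ 10 + 1 * x ^ 8 * u ^ 2 + 1 * x ^ 8 * u ^ 4 + 1 * x ^ 8 * u ^ 6 + 1 * x ^ 8 * u ^ 7 + 1 * x ^ 9 + 1 * x ^ 9 * u + 1 * x ^ 9 * u ^ 4) * k1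
    + (1 * u + 1 * u ^ 4 + 1 * u ^ 6 + 1 * u ^ 7 + 1 * x + 1 * x * u ^ 3 + 1 * x * u ^ 4 + 1 * x * u ^ 5 + 1 * x * u ^ 6 + 1 * x ^ 2 + 1 * x ^ 2 * u + 1 * x ^ 2 * u ^ 4) * k4
    - (- 3 * u - 14 * u ^ 2 - 39 * u ^ 3 - 81 * u ^ 4 - 134 * u ^ 5 - 179 * u ^ 6 - 197 * u ^ 7 - 179 * u ^ 8 - 135 * u ^ 9 - 82 * u ^ 10 - 39 * u ^ 11 - 14 * u ^ 12 - 3 * u ^ 13 - 1 * x * u ^ 4 - 1 * x * u ^ 5 - 1 * x * u ^ 7 - 2 * x * u ^ 8 - 1 * x * u ^ 9 + 1 * x * u ^ 11 + 2 * x * u ^ 12 + 2 * x * u ^ 13 + 1 * x * u ^ 14 + 1 * x ^ 2 + 1 * x ^ 2 * u - 1 * x ^ 2 * u ^ 3 - 2 * x ^ 2 * u ^ 4 - 2 * x ^ 2 * u ^ 5 - 1 * x ^ 2 * u ^ 7 - 1 * x ^ 2 * u ^ 10 + 1 * x ^ 2 * u ^ 11 + 1 * x ^ 2 * u ^ 12 + 1 * x ^ 2 * u ^ 13 + 1 * x ^ 2 * u ^ 14 + 1 * x ^ 3 + 1 * x ^ 3 * u + 1 * x ^ 3 * u ^ 2 + 1 * x ^ 3 * u ^ 5 + 3 *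 x ^ 3 * u ^ 6 + 2 * x ^ 3 * u ^ 7 + 1 * x ^ 3 * u ^ 10 + 4 * x ^ 3 * u ^ 11 + 3 * x ^ 3 * u ^ 12 + 2 * x ^ 3 * u ^ 13 + 1 * x ^ 3 * u ^ 14 + 1 * x ^ 4 + 1 * x ^ 4 * u + 2 * x ^ 4 * u ^ 2 + 1 * x ^ 4 * u ^ 3 - 3 * x ^ 4 * u ^ 4 - 4 * x ^ 4 * u ^ 5 - 1 * x ^ 4 * u ^ 8 - 1 * x ^ 4 * u ^ 9 - 3 * x ^ 4 * u ^ 10 - 1 * x ^ 4 * u ^ 11 - 1 * x ^ 4 * u ^ 12 + 1 * x ^ 4 * u ^ 14 + 2 * x ^ 5 + 2 * x ^ 5 * u + 1 * x ^ 5 * u ^ 2 + 3 * x ^ 5 * u ^ 4 + 3 * x ^ 5 * u ^ 5 + 2 * x ^ 5 * u ^ 6 - 1 * x ^ 5 * u ^ 7 - 3 * x ^ 5 * u ^ 8 - 2 * x ^ 5 * u ^ 9 - 2 * x ^ 5 * u ^ 10 + 2 * x ^ 5 * u ^ 11 + 3 * x ^ 5 * u ^ 12 + 1 * x ^ 5 * u ^ 13 + 1 * x ^ 5 * u ^ 14 + 2 * x ^ 6 + 2 * x ^ 6 * u + 2 * x ^ 6 * u ^ 2 - 1 * x ^ 6 * u ^ 3 - 4 * x ^ 6 * u ^ 4 - 3 * x ^ 6 * u ^ 5 - 2 * x ^ 6 * u ^ 6 - 1 * x ^ 6 * u ^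 7 - 1 * x ^ 6 * u ^ 12 + 1 * x ^ 7 + 1 * x ^ 7 * u + 3 * x ^ 7 * u ^ 2 + 2 * x ^ 7 * u ^ 3 + 3 * x ^ 7 * u ^ 4 + 3 * x ^ 7 * u ^ 5 + 2 * x ^ 7 * u ^ 6 + 2 * x ^ 7 * u ^ 7 - 1 * x ^ 7 * u ^ 8 + 1 * x ^ 7 * u ^ 11 + 1 * x ^ 7 * u ^ 13 + 1 * x ^ 8 + 1 * x ^ 8 * u + 1 * x ^ 8 * u ^ 2 + 1 * x ^ 8 * u ^ 3 - 1 * x ^ 8 * u ^ 4 - 2 * x ^ 8 * u ^ 5 + 1 * x ^ 8 * u ^ 6 + 2 * x ^ 8 * u ^ 7 + 3 * x ^ 8 * u ^ 8 + 2 * x ^ 8 * u ^ 9 - 2 * x ^ 8 * u ^ 10 - 1 * x ^ 8 * u ^ 12 + 1 * x ^ 9 + 1 * x ^ 9 * u + 3 * x ^ 9 * u ^ 2 + 2 * x ^ 9 * u ^ 3 + 4 * x ^ 9 * u ^ 4 + 4 * x ^ 9 * u ^ 5 + 3 * x ^ 9 * u ^ 6 + 2 * x ^ 9 * u ^ 7 - 1 * x ^ 9 * u ^ 9 - 2 * x ^ 9 * u ^ 10 - 1 * x ^ 9 * u ^ 11 + 1 * x ^ 10 * u + 3 * x ^ 10 * u ^ 2 + 1 * x ^ 10 * u ^ 3 - 1 * x ^ 10 * u ^ 5 + 3 * x ^ 10 * u ^ 6 + 1 * x ^ 10 *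 u ^ 7 + 1 * x ^ 11 + 1 * x ^ 11 * u + 2 * x ^ 11 * u ^ 2 + 2 * x ^ 11 * u ^ 3 + 2 * x ^ 11 * u ^ 4 + 1 * x ^ 11 * u ^ 5 + 2 * x ^ 11 * u ^ 6 + 1 * x ^ 11 * u ^ 7 + 1 * x ^ 12 + 1 * x ^ 12 * u + 1 * x ^ 12 * u ^ 4) * h2

/-- no singular point in the affine chart -/
theorem affine {k : Type} [Field k] (u x y : k) (hu : dl u ≠ 0)
    (e1 : y ^ 2 + hh u x * y = ff u x) (e2 : 2 * y + hh u x = 0)
    (e3 : hh' u x * y = ff' u x) : False := by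
  by_cases h2 : (2 : k) = 0
  · exact hu (pow_eq_zero_iff (by norm_num : (7 : ℕ) ≠ 0) |>.1 (char2 u x y h2 e2 e1 e3))
  · have g1 : hh u x ^ 2 + 4 * ff u x = 0 := by
      linear_combination (2 * y + hh u x) * e2 - 4 * e1
    have g2 : 2 * hh u x * hh' u x + 4 * ff' u x = 0 := by
      linear_combination (2 * hh' u x) * e2 - 4 * e3
    have h8 := bezout u x g1 g2
    have : (8 : k) ≠ 0 := by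
      have e : (8 : k) = 2 ^ 3 := by norm_num
      rw [e]
      exact pow_ne_zero 3 h2
    rcases mul_eq_zero.1 h8 with h | h
    · exact this h
    · exact hu (pow_eq_zero_iff (by norm_num : (6 : ℕ) ≠ 0) |>.1 h)

/-- no singular point at infinity: `h₃ = 25`, `h₂ = δ + 3 u`, `f₆ = 50 δ + 19375`,
`f₅ = δ (7 u + 50) + 4650 u` -/
theorem infty {k : Type} [Field k] (u y : k) (hu : dl u ≠ 0)
    (e1 : y ^ 2 + 25 * y = 50 * dl u + 19375) (e2 : 2 * y + 25 = 0)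
    (e3 : (dl u + 3 * u) * y = dl u * (7 * u + 50) + 4650 * u) : False := by
  by_cases h2 : (2 : k) = 0
  · have : (1 : k) = 0 := by linear_combination e2 - (y + 12) * h2
    exact one_ne_zero this
  · have g6 : 25 * (8 * dl u + 3125) = 0 := by
      linear_combination (2 * y + 25) * e2 - 4 * e1
    have g5 : dl u * (28 * u + 250) + 18750 * u = 0 := by
      linear_combination (2 * (dl u + 3 * u)) * e2 - 4 * e3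
    by_cases h5 : (5 : k) = 0
    · have hd : dl u = u ^ 2 := by
        rw [dl]; linear_combination (- 5 * u - 125) * h5
      rw [hd] at g5 hu
      have h3 : (3 : k) * u ^ 3 = 0 := by
        linear_combination g5 - (5 * u ^ 3 + 50 * u ^ 2 + 3750 * u) * h5
      have h3' : (3 : k) ≠ 0 := by
        intro h
        apply h2
        linear_combination h5 - h
      rcases mul_eq_zero.1 h3 with h | h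
      · exact h3' h
      · have hu0 : u = 0 := pow_eq_zero_iff (by norm_num : (3 : ℕ) ≠ 0) |>.1 h
        apply hu
        rw [hu0]; ring
    · have h25 : (25 : k) ≠ 0 := by
        have e : (25 : k) = 5 ^ 2 := by norm_num
        rw [e]
        exact pow_ne_zero 2 h5
      have h8 : 8 * dl u + 3125 = 0 := by
        rcases mul_eq_zero.1 g6 with h | h
        · exact absurd h h25
        · exact h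
      have hs : (5 : k) ^ 6 * (2 * u - 25) = 0 := by
        linear_combination 4 * g5 - (14 * u + 125) * h8
      have hu2 : 2 * u - 25 = 0 := by
        rcases mul_eq_zero.1 hs with h | h
        · exact absurd h (pow_ne_zero 6 h5)
        · exact h
      have h5' : (5 : k) ^ 5 = 0 := by
        rw [dl] at h8
        linear_combination (2 * (2 * u - 25)) * hu2 - h8
      exact pow_ne_zero 5 h5 h5'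

end

end H81ES
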