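import Mathlib
import Pool.Agent.H81.ES.Smooth

/-!
# The curves as pairs of polynomials, smoothness and point counts modulo 7
-/

namespace H81ES

open Polynomial

/-- `y² + h(x) y = f(x)` with `deg h ≤ 3`, `deg f ≤ 6` is smooth over `R`, in the affine chart and in
the chart `(1 / x, y / x³)` at infinity. -/
def SmoothGenusTwo {R : Type} [CommRing R] (h f : R[X]) : Prop :=
  h.natDegree ≤ 3 ∧ f.natDegree ≤ 6 ∧ ∀ (k : Type) [Field k] (φ : R →+* k),
    (∀ x y : k, ¬ (y ^ 2 + (h.map φ).eval x * y = (f.map φ).eval x ∧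
      2 * y + (h.map φ).eval x = 0 ∧
      (derivative (h.map φ)).eval x * y = (derivative (f.map φ)).eval x)) ∧
    ∀ y : k, ¬ (y ^ 2 + φ (h.coeff 3) * y = φ (f.coeff 6) ∧ 2 * y + φ (h.coeff 3) = 0 ∧
      φ (h.coeff 2) * y = φ (f.coeff 5))

section
variable {R : Type} [CommRing R]

/-- the cubic -/
noncomputable def cubP (u : R) : R[X] :=
  25 * X ^ 3 + C (3 * u) * X ^ 2 + C (3 * (u + 25)) * X + C (2 * u + 25)

/-- the quartic -/
noncomputable def qrtP (u : R) : R[X] :=
  25 * X ^ 4 + C (4 * u) * X ^ 3 + C (6 * (u + 25)) * X ^ 2 + C (4 * (2 * u + 25)) * X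
    + C (3 * u + 50)

/-- `h` -/
noncomputable def hP (u : R) : R[X] := C (u ^ 2 - 25 * u - 625) * (X ^ 2 + X) + cubP u

/-- `f` -/
noncomputable def fP (u : R) : R[X] :=
  C (u ^ 2 - 25 * u - 625) * ((X ^ 2 + X - 1) * qrtP u + (X ^ 3 + X ^ 2 + 4 * X + 2) * cubP u)
    + 31 * cubP u ^ 2

theorem hP_map {S : Type} [CommRing S] (φ : R →+* S) (u : R) : (hP u).map φ = hP (φ u) := by
  simp [hP, cubP, map_ofNat]

theorem fP_map {S : Type} [CommRing S] (φ : R →+* S) (u : R) : (fP u).map φ = fP (φ u) := by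
  simp [fP, cubP, qrtP, map_ofNat]

theorem cubP_eval (u x : R) : (cubP u).eval x = cub u x := by
  simp [cubP, cub]

theorem qrtP_eval (u x : R) : (qrtP u).eval x = qrt u x := by
  simp [qrtP, qrt]

theorem hP_eval (u x : R) : (hP u).eval x = hh u x := by
  rw [hP, eval_add, cubP_eval, hh, dl]; simp

theorem fP_eval (u x : R) : (fP u).eval x = ff u x := by
  rw [fP]
  simp only [eval_add, eval_mul, eval_pow, eval_sub, eval_C, eval_X, eval_one, eval_ofNat,
    cubP_eval, qrtP_eval]
  rw [ff, dl]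

theorem cubP_der (u x : R) : (derivative (cubP u)).eval x = cub' u x := by
  rw [cubP, cub']
  simp [derivative_mul, derivative_ofNat]
  ring

theorem qrtP_der (u x : R) : (derivative (qrtP u)).eval x = qrt' u x := by
  rw [qrtP, qrt']
  simp [derivative_mul, derivative_ofNat]
  ring

theorem hP_der (u x : R) : (derivative (hP u)).eval x = hh' u x := by
  rw [hP, derivative_add, eval_add, cubP_der, hh', dl]
  simp only [derivative_add, derivative_mul, derivative_pow, derivative_C,
    derivative_X, eval_add, eval_mul, eval_pow, eval_C, eval_X, eval_zero, eval_one]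
  push_cast
  ring

theorem fP_der (u x : R) : (derivative (fP u)).eval x = ff' u x := by
  rw [fP]
  simp only [derivative_add, derivative_mul, derivative_sub, derivative_pow, derivative_C,
    derivative_X, derivative_one, derivative_ofNat, eval_add, eval_mul, eval_pow, eval_sub, eval_C,
    eval_X, eval_one, eval_zero, eval_ofNat, cubP_eval, qrtP_eval, cubP_der, qrtP_der]
  rw [ff', dl]
  push_cast
  ring

theorem hP_expand (u : R) : hP u = C 25 * X ^ 3 + C (dl u + 3 * u) * X ^ 2
    + C (dl u + 3 * (u + 25)) * X ^ 1 + C (2 * u + 25) * X ^ 0 := by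
  rw [hP, cubP, dl]
  simp only [map_add, map_sub, map_mul, map_pow, map_ofNat]
  ring

theorem fP_expand (u : R) : fP u = C (50 * dl u + 19375) * X ^ 6
    + C (dl u * (7 * u + 50) + 4650 * u) * X ^ 5
    + C (dl u * (16 * u + 300) + (116250 + 4650 * u + 279 * u ^ 2)) * X ^ 4
    + C (dl u * (27 * u + 400) + (38750 + 17050 * u + 558 * u ^ 2)) * X ^ 3
    + C (dl u * (25 * u + 325) + (174375 + 18600 * u + 651 * u ^ 2)) * X ^ 2
    + C (dl u * (9 * u + 200) + (116250 + 13950 * u + 372 * u ^ 2)) * X ^ 1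
    + C (dl u * u + (19375 + 3100 * u + 124 * u ^ 2)) * X ^ 0 := by
  rw [fP, cubP, qrtP, dl]
  simp only [map_add, map_sub, map_mul, map_pow, map_ofNat]
  ring

theorem hP_coeff3 (u : R) : (hP u).coeff 3 = 25 := by
  rw [hP_expand]
  simp only [coeff_add, coeff_C_mul_X_pow]
  norm_num

theorem hP_coeff2 (u : R) : (hP u).coeff 2 = dl u + 3 * u := by
  rw [hP_expand]
  simp only [coeff_add, coeff_C_mul_X_pow]
  norm_num

theorem fP_coeff6 (u : R) : (fP u).coeff 6 = 50 * dl u + 19375 := by
  rw [fP_expand]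
  simp only [coeff_add, coeff_C_mul_X_pow]
  norm_num

theorem fP_coeff5 (u : R) : (fP u).coeff 5 = dl u * (7 * u + 50) + 4650 * u := by
  rw [fP_expand]
  simp only [coeff_add, coeff_C_mul_X_pow]
  norm_num

theorem hP_deg (u : R) : (hP u).natDegree ≤ 3 := by
  rw [hP_expand]
  compute_degree

theorem fP_deg (u : R) : (fP u).natDegree ≤ 6 := by
  rw [fP_expand]
  compute_degree

theorem smooth (u : R) (hu : IsUnit (u ^ 2 - 25 * u - 625)) : SmoothGenusTwo (hP u) (fP u) := by
  refine ⟨hP_deg u, fP_deg u, ?_⟩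
  intro k _ φ
  have hd : dl (φ u) ≠ 0 := by
    have h1 := (hu.map φ).ne_zero
    rw [map_sub, map_sub, map_pow, map_mul, map_ofNat, map_ofNat] at h1
    exact h1
  constructor
  · intro x y h
    rw [hP_map, fP_map, hP_eval, fP_eval, hP_der, fP_der] at h
    exact affine (φ u) x y hd h.1 h.2.1 h.2.2
  · intro y h
    rw [hP_coeff3, hP_coeff2, fP_coeff6, fP_coeff5] at h
    simp only [map_add, map_mul, map_ofNat] at h
    have e : φ (dl u) = dl (φ u) := by
      rw [dl, dl, map_sub, map_sub, map_pow, map_mul, map_ofNat, map_ofNat]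
    rw [e] at h
    exact infty (φ u) y hd h.1 h.2.1 h.2.2

/-- number of points over `F_7` of the reduction of `y² + h(x) y = f(x)` along `φ`: affine points
plus points at infinity -/
noncomputable def numPoints (h f : R[X]) (φ : R →+* ZMod 7) : ℕ :=
  (Finset.univ.filter fun P : ZMod 7 × ZMod 7 =>
    P.2 ^ 2 + (h.map φ).eval P.1 * P.2 = (f.map φ).eval P.1).card
  + (Finset.univ.filter fun y : ZMod 7 =>
    y ^ 2 + φ (h.coeff 3) * y = φ (f.coeff 6)).card

theorem count (u : R) (φ : R →+* ZMod 7) (v : ZMod 7) (hv : φ u = v) (n : ℕ)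
    (hn : (Finset.univ.filter fun P : ZMod 7 × ZMod 7 =>
      P.2 ^ 2 + hh v P.1 * P.2 = ff v P.1).card
      + (Finset.univ.filter fun y : ZMod 7 =>
      y ^ 2 + 25 * y = 50 * dl v + 19375).card = n) : numPoints (hP u) (fP u) φ = n := by
  rw [numPoints, ← hn, ← hv]
  have e : φ (dl u) = dl (φ u) := by
    rw [dl, dl, map_sub, map_sub, map_pow, map_mul, map_ofNat, map_ofNat]
  simp only [hP_map, fP_map, hP_eval, fP_eval, hP_coeff3, fP_coeff6, map_add, map_mul, map_ofNat, e]

theorem count0 (u : R) (φ : R →+* ZMod 7) (hv : φ u = 0) : numPoints (hP u) (fP u) φ = 7 := by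
  apply count u φ 0 hv
  decide +kernel

theorem count6 (u : R) (φ : R →+* ZMod 7) (hv : φ u = 6) : numPoints (hP u) (fP u) φ = 2 := by
  apply count u φ 6 hv
  decide +kernel

end

end H81ES
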