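import Mathlib
import Pool.Agent.H76.ES.Hom

/-!
# Ring homomorphisms from the integers of a quadratic field to `F_7`
-/

namespace H81ES

open NumberField H76ES

theorem exists_hom7 (K : Type) [Field K] [NumberField K] (hK : Module.finrank ℚ K = 2) {d : ℕ}
    (hd : Squarefree d) (h1 : 1 < d)
    (r : K) (hr : r ^ 2 = (d : K)) (s m w : ℤ) (hD : s ^ 2 - 4 * m = d * w ^ 2) (hw : w ≠ 0)
    (B : 𝓞 K) (hβ : 2 * (B : K) = s + w * r) (b : ZMod 7)
    (hb : b ^ 2 = s * b - m) (hDF : ((s ^ 2 - 4 * m : ℤ) : ZMod 7) ≠ 0) :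
    ∃ φ : 𝓞 K →+* ZMod 7, φ B = b := by
  have : Fact (Nat.Prime 7) := ⟨by norm_num⟩
  have h2 : (2 : K) ≠ 0 := two_ne_zero
  have hDK : (s : K) ^ 2 - 4 * m = d * w ^ 2 := by
    exact_mod_cast congrArg (Int.cast : ℤ → K) hD
  have hBK : (B : K) ^ 2 = s * B - m := by
    have h4 : (4 : K) ≠ 0 := by norm_num
    apply mul_left_cancel₀ h4
    have : (4 : K) * (B : K) ^ 2 = (2 * (B : K)) ^ 2 := by ring
    rw [this]
    have h5 : (4 : K) * (s * B - m) = 2 * s * (2 * B) - 4 * m := by ring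
    rw [h5, hβ]
    linear_combination (w : K) ^ 2 * hr - hDK
  have hB : B ^ 2 = s * B - m := by
    apply RingOfIntegers.ext
    push_cast
    exact hBK
  apply hom_of B s m (s ^ 2 - 4 * m) hB
  · intro z
    obtain ⟨x, y, hxy⟩ := disc_mul K hK hd h1 r hr s m w hD (B : K) hβ B.isIntegral_coe (z : K)
      z.isIntegral_coe
    refine ⟨x, y, ?_⟩
    apply RingOfIntegers.ext
    push_cast at hxy ⊢
    exact hxy
  · intro x y h
    have hK' : (x : K) + y * B = 0 := by
      have := congrArg (fun t : 𝓞 K => (t : K)) h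
      push_cast at this
      exact this
    have h3 : ((2 * x + y * s : ℤ) : K) + ((y * w : ℤ) : K) * r = 0 := by
      push_cast
      linear_combination 2 * hK' - (y : K) * hβ
    by_cases hy : y = 0
    · subst hy
      refine ⟨?_, rfl⟩
      rw [Int.cast_zero, zero_mul, add_zero] at hK'
      exact_mod_cast hK'
    · exfalso
      have hyw : y * w ≠ 0 := mul_ne_zero hy hw
      apply nonsq hd h1 (-(2 * x + y * s : ℤ) / (y * w : ℤ))
      have hywK : ((y * w : ℤ) : K) ≠ 0 := by exact_mod_cast hyw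
      have hr' : r = (((-(2 * x + y * s : ℤ) / (y * w : ℤ) : ℚ)) : K) := by
        have : (((-(2 * x + y * s : ℤ) / (y * w : ℤ) : ℚ)) : K)
            = - ((2 * x + y * s : ℤ) : K) / ((y * w : ℤ) : K) := by
          rw [Rat.cast_div, Rat.cast_neg, Rat.cast_intCast, Rat.cast_intCast]
        rw [this, eq_div_iff hywK]
        linear_combination h3
      have h6 : (((-(2 * x + y * s : ℤ) / (y * w : ℤ) : ℚ) ^ 2 : ℚ) : K) = ((d : ℚ) : K) := by
        rw [Rat.cast_pow, ← hr', hr, Rat.cast_natCast]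
      exact Rat.cast_injective h6
  · exact hb
  · exact hDF

end H81ES
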