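import Mathlib

/-!
# The units `φ^(50 n) = a_n + b_n (25 φ) ...` of the order of discriminant `3125`
-/

namespace H81ES

/-- `(a, b)` stands for `a - 25 b φ'`, of norm `a² - 25 a b - 625 b²` -/
def pl : ℕ → ℤ × ℤ
  | 0 => (1, 0)
  | n + 1 => (20365011074 * (pl n).1 + 625 * 503450761 * (pl n).2,
      503450761 * (pl n).1 + 7778742049 * (pl n).2)

theorem pl_succ (n : ℕ) : pl (n + 1) = (20365011074 * (pl n).1 + 625 * 503450761 * (pl n).2,
    503450761 * (pl n).1 + 7778742049 * (pl n).2) := rfl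

theorem pl_norm (n : ℕ) : (pl n).1 ^ 2 - 25 * (pl n).1 * (pl n).2 - 625 * (pl n).2 ^ 2 = 1 := by
  induction n with
  | zero => simp [pl]
  | succ n ih =>
    rw [pl_succ]
    dsimp only
    linear_combination ih

theorem pl_pos (n : ℕ) : 0 ≤ (pl n).2 ∧ 1 ≤ (pl n).1 ∧ 25 * (pl n).2 ≤ (pl n).1 := by
  induction n with
  | zero => simp [pl]
  | succ n ih =>
    rw [pl_succ]
    dsimp only
    refine ⟨?_, ?_, ?_⟩ <;> linarith [ih.1, ih.2.1, ih.2.2]

/-- the trace -/
def tl (n : ℕ) : ℤ := 2 * (pl n).1 - 25 * (pl n).2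

theorem tl_big (n : ℕ) : 28143753123 ≤ tl (n + 1) := by
  rw [tl, pl_succ]
  dsimp only
  linarith [(pl_pos n).1, (pl_pos n).2.1, (pl_pos n).2.2]

theorem tl_norm (n : ℕ) : tl n ^ 2 - 3125 * (pl n).2 ^ 2 = 4 := by
  rw [tl]
  linear_combination 4 * pl_norm n

/-- the sequence modulo 7 -/
def plz : ℕ → ZMod 7 × ZMod 7
  | 0 => (1, 0)
  | n + 1 => (2 * (plz n).1 + 4 * (plz n).2, 2 * (plz n).1 + (plz n).2)

theorem plz_succ (n : ℕ) : plz (n + 1) =
    (2 * (plz n).1 + 4 * (plz n).2, 2 * (plz n).1 + (plz n).2) := rfl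

theorem pl_cast (n : ℕ) : (((pl n).1 : ZMod 7), ((pl n).2 : ZMod 7)) = plz n := by
  induction n with
  | zero => simp [pl, plz]
  | succ n ih =>
    rw [plz_succ, ← ih, pl_succ]
    dsimp only
    push_cast
    have h1 : (20365011074 : ZMod 7) = 2 := by decide
    have h2 : (314656725625 : ZMod 7) = 4 := by decide
    have h3 : (503450761 : ZMod 7) = 2 := by decide
    have h4 : (7778742049 : ZMod 7) = 1 := by decide
    rw [h1, h2, h3, h4, one_mul]

theorem plz_add (n : ℕ) : plz (n + 8) = plz n := by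
  induction n with
  | zero => decide
  | succ n ih =>
    have : n + 1 + 8 = (n + 8) + 1 := by ring
    rw [this, plz_succ, ih, ← plz_succ]

theorem plz_one (i : ℕ) : plz (1 + 8 * i) = (2, 2) := by
  induction i with
  | zero => decide
  | succ n ih =>
    have : 1 + 8 * (n + 1) = (1 + 8 * n) + 8 := by ring
    rw [this, plz_add, ih]

theorem pl_mod (i : ℕ) : (((pl (1 + 8 * i)).1 : ℤ) : ZMod 7) = 2 ∧
    (((pl (1 + 8 * i)).2 : ℤ) : ZMod 7) = 2 := by
  have h := (pl_cast (1 + 8 * i)).trans (plz_one i)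
  exact ⟨(Prod.ext_iff.1 h).1, (Prod.ext_iff.1 h).2⟩

/-- `√3125` -/
noncomputable def th : ℝ := Real.sqrt 3125

theorem th_sq : th ^ 2 = 3125 := Real.sq_sqrt (by norm_num)

theorem th_pos : 0 < th := Real.sqrt_pos.2 (by norm_num)

/-- `α = φ^50` -/
noncomputable def al : ℝ := (28143753123 + 503450761 * th) / 2

theorem al_big : 1000000 ≤ al := by
  rw [al]
  have := th_pos
  linarith

theorem pl_real (n : ℕ) : ((tl n : ℤ) : ℝ) + (pl n).2 * th = 2 * al ^ n := by
  induction n with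
  | zero => simp [pl, tl]
  | succ n ih =>
    have e : (2 : ℝ) * al ^ (n + 1) = al * (2 * al ^ n) := by ring
    rw [e, ← ih, tl, tl, pl_succ, al]
    push_cast
    linear_combination (-(503450761 : ℝ) * (pl n).2 / 2) * th_sq

theorem pl_real' (n : ℕ) : (((tl n : ℤ) : ℝ) - (pl n).2 * th) * al ^ n = 2 := by
  have h1 : (((tl n : ℤ) : ℝ) - (pl n).2 * th) * (2 * al ^ n) = 4 := by
    rw [← pl_real n]
    have h := tl_norm n
    have h' : ((tl n : ℤ) : ℝ) ^ 2 - 3125 * ((pl n).2 : ℝ) ^ 2 = 4 := by exact_mod_cast h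
    linear_combination h' - ((pl n).2 : ℝ) ^ 2 * th_sq
  linarith

theorem pl_two (n : ℕ) : ((tl n : ℤ) : ℝ) = al ^ n + (al ^ n)⁻¹ := by
  have h0 : al ^ n ≠ 0 := pow_ne_zero _ (by have := al_big; linarith)
  have h1 : (((tl n : ℤ) : ℝ) - (pl n).2 * th) / 2 = (al ^ n)⁻¹ := by
    rw [eq_comm]
    apply inv_eq_of_mul_eq_one_left
    have := pl_real' n
    linarith
  have h2 := pl_real n
  rw [← h1]
  linarith

end H81ES
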