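import Mathlib
import Pool.Agent.H76.ES.Main
import Pool.Agent.H81.ES.Curve
import Pool.Agent.H81.ES.Hom
import Pool.Agent.H81.ES.Inf

/-!
# The genus 2 curves over the real quadratic fields
-/

namespace H81ES

open NumberField Polynomial H76ES

theorem unit_of {R : Type} [CommRing R] (u : R) (a b : ℤ)
    (hu : u ^ 2 = ((25 + b : ℤ) : R) * u - ((a - 625 : ℤ) : R))
    (hN : a ^ 2 - 25 * a * b - 625 * b ^ 2 = 1) : IsUnit (u ^ 2 - 25 * u - 625) := by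
  have hN' : (a : R) ^ 2 - 25 * a * b - 625 * (b : R) ^ 2 = 1 := by
    exact_mod_cast congrArg (Int.cast : ℤ → R) hN
  push_cast at hu
  have e : (u ^ 2 - 25 * u - 625) * ((b : R) * (25 + b - u) - a) = 1 := by
    have e1 : u ^ 2 - 25 * u - 625 = b * u - a := by linear_combination hu
    rw [e1]
    linear_combination hN' - (b : R) ^ 2 * hu
  exact IsUnit.of_mul_eq_one _ e

theorem main (i d w : ℕ) (hd : Squarefree d) (h1 : 1 < d) (hD : disc i = d * (w : ℤ) ^ 2)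
    (K : Type) [Field K] [NumberField K] (hK : Module.finrank ℚ K = 2)
    (r : K) (hr : r ^ 2 = (d : K)) :
    ∃ u : 𝓞 K, IsUnit (u ^ 2 - 25 * u - 625) ∧ SmoothGenusTwo (hP u) (fP u) ∧
      ∃ φ ψ : 𝓞 K →+* ZMod 7, numPoints (hP u) (fP u) φ = 7 ∧
        numPoints (hP u) (fP u) ψ = 2 := by
  obtain ⟨b, hb⟩ : ∃ b, b = (pl (1 + 8 * i)).2 := ⟨_, rfl⟩
  obtain ⟨a, ha⟩ : ∃ a, a = (pl (1 + 8 * i)).1 := ⟨_, rfl⟩
  have hmod := pl_mod i
  have hpos := disc_pos i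
  have hnorm := pl_norm (1 + 8 * i)
  rw [← ha, ← hb] at hnorm hmod
  obtain ⟨s, hs⟩ : ∃ s : ℤ, s = 25 + b := ⟨_, rfl⟩
  obtain ⟨m, hm⟩ : ∃ m : ℤ, m = a - 625 := ⟨_, rfl⟩
  have hD' : s ^ 2 - 4 * m = d * (w : ℤ) ^ 2 := by rw [← hD, disc, hs, hm, ha, hb]
  have hw : (w : ℤ) ≠ 0 := by
    intro h0
    rw [hD, h0] at hpos
    simp at hpos
  have hDK : (s : K) ^ 2 - 4 * m = d * (w : K) ^ 2 := by
    exact_mod_cast congrArg (Int.cast : ℤ → K) hD'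
  obtain ⟨β, hβ⟩ : ∃ β : K, 2 * β = s + w * r := ⟨(s + w * r) / 2, by field_simp⟩
  have hβ2 : β ^ 2 = s * β - ((m : ℤ) : K) := by
    have h4 : (4 : K) ≠ 0 := by norm_num
    apply mul_left_cancel₀ h4
    have e1 : (4 : K) * β ^ 2 = (2 * β) ^ 2 := by ring
    have e2 : (4 : K) * (s * β - (m : K)) = 2 * s * (2 * β) - 4 * (m : K) := by ring
    rw [e1, e2, hβ]
    linear_combination (w : K) ^ 2 * hr - hDK
  have hint : IsIntegral ℤ β := isInt K s m β hβ2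
  obtain ⟨u, hu⟩ : ∃ u : 𝓞 K, (u : K) = β := ⟨⟨β, hint⟩, rfl⟩
  have hu2 : u ^ 2 = (s : 𝓞 K) * u - (m : 𝓞 K) := by
    have hBB : (u : K) ^ 2 = s * (u : K) - (m : K) := by
      rw [hu]; exact hβ2
    apply RingOfIntegers.ext
    push_cast at hBB ⊢
    exact hBB
  have hunit : IsUnit (u ^ 2 - 25 * u - 625) := by
    apply unit_of u a b _ hnorm
    rw [← hs, ← hm]
    exact hu2
  have hs7 : (s : ZMod 7) = 6 := by
    rw [hs]
    push_cast
    rw [hmod.2]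
    decide
  have hm7 : (m : ZMod 7) = 0 := by
    rw [hm]
    push_cast
    rw [hmod.1]
    decide
  have hD7 : ((s ^ 2 - 4 * m : ℤ) : ZMod 7) ≠ 0 := by
    push_cast
    rw [hs7, hm7]
    decide
  have hβ' : 2 * (u : K) = s + ((w : ℤ) : K) * r := by
    rw [hu, hβ]; push_cast; ring
  obtain ⟨φ, hφ⟩ := exists_hom7 K hK hd h1 r hr s m w hD' hw u hβ' 0
    (by rw [hs7, hm7]; decide) hD7
  obtain ⟨ψ, hψ⟩ := exists_hom7 K hK hd h1 r hr s m w hD' hw u hβ' 6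
    (by rw [hs7, hm7]; decide) hD7
  exact ⟨u, hunit, smooth u hunit, φ, ψ, count0 u φ hφ, count6 u ψ hψ⟩

theorem infinite (B : ℕ) :
    ∃ d : ℕ, B < d ∧ Squarefree d ∧
      ∀ (K : Type) [Field K] [NumberField K], Module.finrank ℚ K = 2 →
        (∃ r : K, r ^ 2 = (d : K)) →
        ∃ u : 𝓞 K, IsUnit (u ^ 2 - 25 * u - 625) ∧ SmoothGenusTwo (hP u) (fP u) ∧
          ∃ φ ψ : 𝓞 K →+* ZMod 7, numPoints (hP u) (fP u) φ = 7 ∧
            numPoints (hP u) (fP u) ψ = 2 := by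
  obtain ⟨i, a, b, hB, ha, hD⟩ := unbounded (max B 1)
  refine ⟨a, lt_of_le_of_lt (le_max_left B 1) hB, ha, ?_⟩
  intro K _ _ hK hr
  obtain ⟨r, hr⟩ := hr
  exact main i a b ha (lt_of_le_of_lt (le_max_right B 1) hB) hD K hK r hr

end H81ES
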